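import Pool.Agent.H17.Adic3b

set_option autoImplicit false

namespace Pool.Agent.Results.MP_981e77_lc.NoFiniteTemplate

open Pool.Agent.H17.Adic3

/-- There is a homomorphism from (X, R) to (B, S); ternary relations are sets of triples. -/
def Hom {X B : Type} (R : Set (Fin 3 → X)) (S : Set (Fin 3 → B)) : Prop :=
  ∃ f : X → B, ∀ t ∈ R, (fun i => f (t i)) ∈ S

/-- The relation of 1-in-3 on {0,1}. -/
def oneInThree : Finset (Fin 3 → Fin 2) := {![1, 0, 0], ![0, 1, 0], ![0, 0, 1]}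

/-- The relation of not-all-equal on {0,1}. -/
def nae : Set (Fin 3 → Fin 2) := {s | s ≠ ![0, 0, 0] ∧ s ≠ ![1, 1, 1]}

/-- The relation x + y + z = 1 on the integers modulo m. -/
def eqRel (m : ℕ) : Set (Fin 3 → ZMod m) := {t | t 0 + t 1 + t 2 = 1}

/-- The relation of the product structure. -/
def prodRel {B₁ B₂ : Type} (R : Set (Fin 3 → B₁)) (S : Set (Fin 3 → B₂)) :
    Set (Fin 3 → B₁ × B₂) :=
  {t | (fun i => (t i).1) ∈ R ∧ (fun i => (t i).2) ∈ S}

/-- The affine integer programming relaxation of the instance (X, R) over 1-in-3 has an integer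
solution. -/
def AIPAccepts {X : Type} (R : Set (Fin 3 → X)) : Prop :=
  ∃ (lam : X → Fin 2 → ℤ) (mu : (Fin 3 → X) → (Fin 3 → Fin 2) → ℤ),
    (∀ x, ∑ a, lam x a = 1) ∧
    ∀ t ∈ R, (∑ s ∈ oneInThree, mu t s = 1) ∧
      ∀ (i : Fin 3) (a : Fin 2), lam (t i) a = ∑ s ∈ oneInThree.filter (fun s => s i = a), mu t s

/-- AIP solves PCSP(1-in-3, (B, S)). -/
def AIPSolves {B : Type} (S : Set (Fin 3 → B)) : Prop :=
  ∀ (X : Type) [Finite X] (R : Set (Fin 3 → X)), AIPAccepts R → Hom R S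

def col (x : ℤ) : ℤ × (ℤ × ℤ) × (ℤ × ℤ) := (x % 9, (lab x, dig x), (lab (x - 1), dig (x - 1)))

theorem col_finite : (Set.range col).Finite := by
  have h : (Set.Icc (0 : ℤ) 27).Finite := Set.finite_Icc _ _
  refine (h.prod ((h.prod h).prod (h.prod h))).subset ?_
  rintro _ ⟨x, rfl⟩
  simp only [col, lab, dig, Set.mem_prod, Set.mem_Icc]
  omega

def colRel : Set (Fin 3 → Set.range col) :=
  {t | ∃ x : Fin 3 → ℤ, x 0 + x 1 + x 2 = 1 ∧ ∀ i, (t i).1 = col (x i)}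

theorem hom_of_int {X : Type} (R : Set (Fin 3 → X)) (f : X → ℤ)
    (h : ∀ t ∈ R, f (t 0) + f (t 1) + f (t 2) = 1) : Hom R colRel :=
  ⟨fun x => ⟨col (f x), f x, rfl⟩, fun t ht => ⟨fun i => f (t i), h t ht, fun _ => rfl⟩⟩

theorem no_hom (p : ℕ) : ¬ Hom (prodRel (eqRel (3 ^ p)) nae) colRel := by
  rintro ⟨f, hf⟩
  let F : Fin 2 → ℤ → ℤ × (ℤ × ℤ) × (ℤ × ℤ) := fun s x => (f ((x : ZMod (3 ^ p)), s)).1
  have per : ∀ s x k, F s (x + 3 ^ p * k) = F s x := by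
    intro s x k
    have : ((x + 3 ^ p * k : ℤ) : ZMod (3 ^ p)) = x := by
      have h0 : ((3 ^ p : ℕ) : ZMod (3 ^ p)) = 0 := ZMod.natCast_self _
      push_cast at h0 ⊢
      rw [h0]; ring
    simp only [F, this]
  have rel : ∀ (s1 s2 s3 : Fin 2) (x y z : ℤ), ![s1, s2, s3] ∈ nae → x + y + z = 1 →
      ∃ a b c : ℤ, a + b + c = 1 ∧ F s1 x = col a ∧ F s2 y = col b ∧ F s3 z = col c := by
    intro s1 s2 s3 x y z hs h
    have := hf ![((x : ZMod (3 ^ p)), s1), ((y : ZMod (3 ^ p)), s2), ((z : ZMod (3 ^ p)), s3)]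
      ⟨by
        show (x : ZMod (3 ^ p)) + y + z = 1
        rw [← Int.cast_add, ← Int.cast_add, h, Int.cast_one], by
        have : (fun i => (![((x : ZMod (3 ^ p)), s1), ((y : ZMod (3 ^ p)), s2),
          ((z : ZMod (3 ^ p)), s3)] i).2) = ![s1, s2, s3] := by
          funext i; fin_cases i <;> rfl
        rw [this]; exact hs⟩
    obtain ⟨w, hw, hc⟩ := this
    exact ⟨w 0, w 1, w 2, hw, hc 0, hc 1, hc 2⟩
  have n001 : ![(0 : Fin 2), 0, 1] ∈ nae := ⟨by decide, by decide⟩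
  have n011 : ![(0 : Fin 2), 1, 1] ∈ nae := ⟨by decide, by decide⟩
  have n010 : ![(0 : Fin 2), 1, 0] ∈ nae := ⟨by decide, by decide⟩
  have r1 : ∀ x y z : ℤ, x + y + z = 1 → (9 : ℤ) ∣ (F 0 x).1 + (F 0 y).1 + (F 1 z).1 - 1 := by
    intro x y z h
    obtain ⟨a, b, c, h0, h1, h2, h3⟩ := rel 0 0 1 x y z n001 h
    rw [h1, h2, h3]; simp only [col]; omega
  have r2 : ∀ x y z : ℤ, x + y + z = 1 → (9 : ℤ) ∣ (F 0 x).1 + (F 1 y).1 + (F 1 z).1 - 1 := by
    intro x y z h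
    obtain ⟨a, b, c, h0, h1, h2, h3⟩ := rel 0 1 1 x y z n011 h
    rw [h1, h2, h3]; simp only [col]; omega
  obtain ⟨L, A0, -, A1⟩ := affine 9 1 1 (fun x => (F 0 x).1) (fun x => (F 0 x).1)
    (fun x => (F 1 x).1) r1
  have q1 := r1 1 0 0 (by norm_num)
  have q2 := r2 1 0 0 (by norm_num)
  have q3 := A0 1
  generalize hμ : (F 0 0).1 = μ at *
  generalize hν : (F 1 0).1 = ν at *
  obtain ⟨j, hj⟩ : ∃ j : ℤ, L = 1 - 3 * μ + 9 * j := ⟨(L - 1 + 3 * μ) / 9, by omega⟩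
  have inr : ∀ s x, ∃ a, F s x = col a := fun s x => by
    obtain ⟨a, ha⟩ := (f ((x : ZMod (3 ^ p)), s)).2
    exact ⟨a, ha.symm⟩
  set κ : ℤ := 1 + 3 * μ with hκ
  have eL : ∀ u : ℤ, L * (κ * (u - μ)) = u - μ + 9 * ((j * κ - μ * μ) * (u - μ)) := by
    intro u; rw [hj, hκ]; ring
  have eL' : ∀ u : ℤ, L * (κ * (u + 2 * μ) + 1) =
      u + 2 * μ + 9 * ((j * κ - μ * μ) * (u + 2 * μ)) + L := by
    intro u; rw [hj, hκ]; ring
  refine descent p 0 (fun u => (F 0 (κ * (u - μ))).2.1) (fun u => (F 1 (κ * (u - μ))).2.1)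
    (fun u => (F 0 (κ * (u + 2 * μ) + 1)).2.2) ?_ ?_ ?_ ?_ ?_ ?_ ?_
  · intro u k
    rw [show κ * (u + 3 ^ p * k - μ) = κ * (u - μ) + 3 ^ p * (κ * k) by ring, per]
  · intro u k
    rw [show κ * (u + 3 ^ p * k - μ) = κ * (u - μ) + 3 ^ p * (κ * k) by ring, per]
  · intro u k
    rw [show κ * (u + 3 ^ p * k + 2 * μ) + 1 = κ * (u + 2 * μ) + 1 + 3 ^ p * (κ * k) by ring, per]
  · intro u v w h
    obtain ⟨a, b, c, h0, h1, h2, h3⟩ := rel 0 1 0 (κ * (u - μ)) (κ * (v - μ))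
      (κ * (w + 2 * μ) + 1) n010 (by linear_combination κ * h)
    exact ⟨a, b, c - 1, by linarith, by rw [h1]; rfl, by rw [h2]; rfl, by rw [h3]; rfl⟩
  · intro u hu
    obtain ⟨a, ha⟩ := inr 0 (κ * (u - μ))
    have h := A0 (κ * (u - μ))
    rw [eL, ha] at h
    simp only [ha, col] at h ⊢
    have := unit_case a (by omega)
    omega
  · intro u hu
    obtain ⟨a, ha⟩ := inr 1 (κ * (u - μ))
    have h := A1 (κ * (u - μ))
    rw [eL, ha] at h
    simp only [ha, col] at h ⊢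
    have := unit_case a (by omega)
    omega
  · intro u hu
    obtain ⟨a, ha⟩ := inr 0 (κ * (u + 2 * μ) + 1)
    have h := A0 (κ * (u + 2 * μ) + 1)
    rw [eL', ha] at h
    simp only [ha, col] at h ⊢
    have := unit_case (a - 1) (by omega)
    omega

theorem result : ∃ (B : Type) (_ : Finite B) (S : Set (Fin 3 → B)),
    Hom (oneInThree : Set (Fin 3 → Fin 2)) S ∧ AIPSolves S ∧
      ∀ p : ℕ, ¬ Hom (prodRel (eqRel (3 ^ p)) nae) S := by
  refine ⟨Set.range col, col_finite, colRel, ?_, ?_, no_hom⟩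
  · refine hom_of_int _ (fun a => (a.val : ℤ)) ?_
    intro t ht
    simp only [oneInThree, Finset.coe_insert, Finset.coe_singleton, Set.mem_insert_iff,
      Set.mem_singleton_iff] at ht
    rcases ht with rfl | rfl | rfl <;> simp
  · rintro X _ R ⟨lam, mu, -, h⟩
    refine hom_of_int R (fun x => lam x 1) ?_
    intro t ht
    obtain ⟨h0, h1⟩ := h t ht
    have e0 : oneInThree.filter (fun s => s 0 = 1) = {![1, 0, 0]} := by decide
    have e1 : oneInThree.filter (fun s => s 1 = 1) = {![0, 1, 0]} := by decide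
    have e2 : oneInThree.filter (fun s => s 2 = 1) = {![0, 0, 1]} := by decide
    rw [h1 0 1, h1 1 1, h1 2 1, e0, e1, e2, ← h0, oneInThree,
      Finset.sum_insert (by decide), Finset.sum_insert (by decide)]
    simp [add_assoc]

end Pool.Agent.Results.MP_981e77_lc.NoFiniteTemplate
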